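import Pool.Agent.MP_5f7865_al.KS.Fam
import Pool.Agent.MP_5f7865_al.Mg.H99_Main

namespace Pool.Agent.Results.MP_5f7865_al.KnownSimple

open Pool.Agent.MP_c78e8e_al.H75 CartanMatrix

/-- Groups of bounded order (among them the sporadic groups), the alternating groups and the
groups of Lie type in their adjoint models. -/
inductive Known : (T : Type) → [Group T] → Prop
  | small (T : Type) [Group T] (h : Nat.card T ≤ 10 ^ 54) : Known T
  | alt (m : ℕ) : Known (alternatingGroup (Fin m))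
  | a1 (K : Type) [Field K] [Finite K] (r : ℕ) (h : 1 ≤ r) : Known (chev (A r) 1 (RingHom.id K))
  | a2 (K : Type) [Field K] [Finite K] (φ : K →+* K) (hφ : ∀ s, φ (φ s) = s) (r : ℕ)
      (h : 3 ≤ r ∨ r = 2 ∧ φ ≠ RingHom.id K) : Known (chev (A r) Fin.revPerm φ)
  | d1 (K : Type) [Field K] [Finite K] (r : ℕ) (h : 4 ≤ r) : Known (chev (D r) 1 (RingHom.id K))
  | d2 (K : Type) [Field K] [Finite K] (φ : K →+* K) (hφ : ∀ s, φ (φ s) = s) (n : ℕ) (h : 2 ≤ n) :
      Known (chev (D (n + 2)) (Equiv.swap (Fin.last n).castSucc (Fin.last (n + 1))) φ)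
  | d3 (K : Type) [Field K] [Finite K] (φ : K →+* K) (hφ : ∀ s, φ (φ (φ s)) = s) :
      Known (chev (D 4) (Equiv.swap 0 3 * Equiv.swap 0 2) φ)
  | e6 (K : Type) [Field K] [Finite K] : Known (chev E₆ 1 (RingHom.id K))
  | e7 (K : Type) [Field K] [Finite K] : Known (chev E₇ 1 (RingHom.id K))
  | e8 (K : Type) [Field K] [Finite K] : Known (chev E₈ 1 (RingHom.id K))
  | e62 (K : Type) [Field K] [Finite K] (φ : K →+* K) (hφ : ∀ s, φ (φ s) = s) :
      Known (chev E₆ (Equiv.swap 0 5 * Equiv.swap 2 4) φ)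
  | b22 (K : Type) [Field K] [Finite K] (φ : K →+* K) (hφ : ∀ s, φ (φ s) = s ^ 2) :
      Known (ree (A 3) [([0, 2], 1)] φ)
  | g22 (K : Type) [Field K] [Finite K] (φ : K →+* K) (hφ : ∀ s, φ (φ s) = s ^ 3) :
      Known (ree (D 4) [([0, 2, 3], 1)] φ)
  | f42 (K : Type) [Field K] [Finite K] (φ : K →+* K) (hφ : ∀ s, φ (φ s) = s ^ 2) :
      Known (⁅ree E₆ [([0, 5], 1), ([2, 4], 3)] φ, ree E₆ [([0, 5], 1), ([2, 4], 3)] φ⁆ :
        Subgroup _)

open Pool.Agent.MP_5f7865_al.KS ArithmeticFunction in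
theorem emb (T : Type) [Group T] [Finite T] (h : Known T) (k : ℕ)
    (hk : cardFactors (Nat.card T) ≤ k) : Emb (Nb k + (k + 2) + 10 ^ 54) T := by
  have hn : Nb (cardFactors (Nat.card T)) ≤ Nb k + (k + 2) + 10 ^ 54 :=
    (Nb_mono hk).trans (by omega)
  cases h with
  | small _ h => exact emb_small _ (by omega)
  | alt m => exact emb_alt m _ (by omega)
  | a1 _ r h =>
    exact emb_one (wkA h) ((le_or_gt 2 r).imp goodA (by omega)) ⟨0, by omega⟩ hn
  | a2 _ _ hφ r h =>
    rcases h with h | ⟨rfl, h⟩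
    exacts [emb_rev hφ h hn, emb_su3 hφ h hn]
  | d1 _ r h =>
    exact emb_one (wk_of (goodD (by omega))) (.inl (goodD (by omega))) ⟨0, by omega⟩ hn
  | d2 _ _ hφ _ h => exact emb_d2 hφ h hn
  | d3 _ _ hφ => exact emb_d3 hφ hn
  | e6 => exact emb_one (wk_of good6) (.inl good6) 0 hn
  | e7 => exact emb_one (wk_of good7) (.inl good7) 0 hn
  | e8 => exact emb_one (wk_of good8) (.inl good8) 0 hn
  | e62 _ _ hφ => exact emb_e62 hφ hn
  | b22 _ _ hφ => exact emb_sz hφ hn
  | g22 _ _ hφ => exact emb_re hφ hn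
  | f42 _ _ hφ => exact emb_f4 hφ hn

/-- For every finite group `G` the number of inequivalent actions of `G` on a finite group `X`
is bounded in terms of the number of prime factors of `|X|`, as long as every nonabelian
composition factor of `X` is isomorphic to a group in the list `Known`. -/
theorem result :
    ∀ (G : Type) [Group G] [Finite G], ∃ f : ℕ → ℕ,
      ∀ (X : Type) [Group X] [Finite X],
        (∀ H : Subgroup X, H.IsSubnormal → ∀ (S : Type) [Group S], IsSimpleGroup S →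
          (∃ a b : S, a * b ≠ b * a) → ∀ π : H →* S, Function.Surjective π →
            ∃ (T : Type) (_ : Group T), Known T ∧ Nonempty (S ≃* T)) →
        Nat.card (Quot (fun φ ψ : G →* MulAut X =>
            ∃ a : MulAut X, ∀ g : G, ψ g = a * φ g * a⁻¹))
          ≤ f (Nat.primeFactorsList (Nat.card X)).length := by
  intro G _ _
  obtain ⟨f, hf⟩ := Pool.Agent.MP_5f7865_al.H99.final G
  refine ⟨fun k => f (Pool.Agent.MP_5f7865_al.KS.Nb k + (k + 2) + 10 ^ 54) k, fun X _ _ hX =>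
    hf _ X fun H hH S _ hS hab π hπ => ?_⟩
  obtain ⟨T, _, hT, ⟨e⟩⟩ := hX H hH S hS hab π hπ
  have : Finite S := Finite.of_surjective π hπ
  have : Finite T := Finite.of_equiv S e.toEquiv
  refine (emb T hT _ ?_).of_equiv e
  rw [← ArithmeticFunction.cardFactors_apply, ← Nat.card_congr e.toEquiv]
  exact Pool.Agent.MP_5f7865_al.KS.om_dvd ((Subgroup.card_dvd_of_surjective π hπ).trans
    (Subgroup.card_subgroup_dvd_card H)) Nat.card_pos.ne'

end Pool.Agent.Results.MP_5f7865_al.KnownSimple
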