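import Mathlib
import Pool.Agent.MP_5f7865_al.Mg.H99_Main

namespace Pool.Agent.Results.MP_5f7865_al.LinearFactors

/-- For every finite group `G` the number of inequivalent actions of `G` on a finite group `X`
is bounded in terms of `n` and the number of prime factors of `|X|`, as long as every nonabelian
composition factor of `X` (simple quotient of a subnormal subgroup) embeds in `GL n (ZMod p)`
for some prime `p` (depending on the factor). -/
theorem result :
    ∀ (G : Type) [Group G] [Finite G], ∃ f : ℕ → ℕ → ℕ,
      ∀ (n : ℕ) (X : Type) [Group X] [Finite X],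
        (∀ H : Subgroup X, H.IsSubnormal → ∀ (S : Type) [Group S], IsSimpleGroup S →
          (∃ a b : S, a * b ≠ b * a) → ∀ π : H →* S, Function.Surjective π →
            ∃ p : ℕ, p.Prime ∧
              ∃ ρ : S →* Matrix.GeneralLinearGroup (Fin n) (ZMod p), Function.Injective ρ) →
        Nat.card (Quot (fun φ ψ : G →* MulAut X =>
            ∃ a : MulAut X, ∀ g : G, ψ g = a * φ g * a⁻¹))
          ≤ f n (Nat.primeFactorsList (Nat.card X)).length :=
  fun G _ _ => Pool.Agent.MP_5f7865_al.H99.final G

end Pool.Agent.Results.MP_5f7865_al.LinearFactors
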