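import Mathlib
import Pool.Agent.MP_5f7865_al.Mg.Final

namespace Pool.Agent.Results.MP_5f7865_al.SolvableG

/-- For every finite solvable group `G`, the number of inequivalent actions of `G` on an
arbitrary finite group `X` is bounded by a function of the number of prime factors of `|X|`. -/
theorem result :
    ∀ (G : Type) [Group G] [Finite G], Group.IsSolvable G → ∃ f : ℕ → ℕ,
      ∀ (X : Type) [Group X] [Finite X],
        Nat.card (Quot (fun φ ψ : G →* MulAut X =>
            ∃ a : MulAut X, ∀ g : G, ψ g = a * φ g * a⁻¹))
          ≤ f (Nat.primeFactorsList (Nat.card X)).length :=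
  fun G _ _ _ => Pool.Agent.MP_5f7865_al.final G

end Pool.Agent.Results.MP_5f7865_al.SolvableG
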